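import Mathlib

/-!
# The strong form of the Winfree threshold question fails

For every `N ≥ 2` there are frequencies `Ω` with `‖Ω‖_∞ ≤ 1` and initial phases `Θ⁰` with
`κ_c(Ω) < κ_pc(Θ⁰, Ω)` and `κ_pc(Θ⁰, Ω) ≥ 4 N / (3 √3)`.
-/

namespace Pool.Agent.Results.MP_4423d6_an.StrongFormFails

open Set Filter Topology

/-- Right-hand side of the Winfree model. -/
noncomputable def rhs {N : ℕ} (κ : ℝ) (Ω θ : Fin N → ℝ) (i : Fin N) : ℝ :=
  Ω i - κ / N * (∑ j, (1 + Real.cos (θ j))) * Real.sin (θ i)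

/-- `Θ` is the solution on `[0,∞)` of the Winfree model with initial phases `Θ₀`. -/
def IsSolution {N : ℕ} (κ : ℝ) (Ω Θ₀ : Fin N → ℝ) (Θ : ℝ → Fin N → ℝ) : Prop :=
  Θ 0 = Θ₀ ∧ ∀ t, 0 ≤ t → ∀ i, HasDerivWithinAt (fun s => Θ s i) (rhs κ Ω (Θ t) i) (Ici 0) t

/-- The solution from `Θ₀` converges. -/
def SolutionConverges {N : ℕ} (κ : ℝ) (Ω Θ₀ : Fin N → ℝ) : Prop :=
  ∃ Θ, IsSolution κ Ω Θ₀ Θ ∧ ∀ i, ∃ L : ℝ, Tendsto (fun t => Θ t i) atTop (𝓝 L)

/-- The system has an equilibrium. -/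
def HasEquilibrium {N : ℕ} (κ : ℝ) (Ω : Fin N → ℝ) : Prop :=
  ∃ θ : Fin N → ℝ, ∀ i, rhs κ Ω θ i = 0

/-- Critical coupling strength `κ_c(Ω)` (infimum in the extended reals, `inf ∅ = +∞`). -/
noncomputable def criticalCoupling {N : ℕ} (Ω : Fin N → ℝ) : EReal :=
  sInf ((fun x : ℝ => (x : EReal)) '' {k : ℝ | 0 < k ∧ ∀ κ, k < κ → HasEquilibrium κ Ω})

/-- Pathwise critical coupling strength `κ_pc(Θ₀, Ω)` (infimum in the extended reals). -/
noncomputable def pathwiseCriticalCoupling {N : ℕ} (Θ₀ Ω : Fin N → ℝ) : EReal :=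
  sInf ((fun x : ℝ => (x : EReal)) '' {k : ℝ | 0 < k ∧ ∀ κ, k < κ → SolutionConverges κ Ω Θ₀})

/-- One oscillator with frequency `1`, all others with frequency `0`. -/
def freq (n : ℕ) : Fin (n + 2) → ℝ := fun i => if i = 0 then 1 else 0

/-- One oscillator starts at `0`, all others at `π`. -/
noncomputable def init (n : ℕ) : Fin (n + 2) → ℝ := fun i => if i = 0 then 0 else Real.pi

lemma trig_bound (a : ℝ) : (1 + Real.cos a) * Real.sin a ≤ 3 * √3 / 4 := by
  have h1 : Real.sin a ^ 2 = 1 - Real.cos a ^ 2 := by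
    have := Real.sin_sq_add_cos_sq a
    linarith
  set c := Real.cos a with hc
  have hc1 : -1 ≤ c := Real.neg_one_le_cos a
  have hc2 : c ≤ 1 := Real.cos_le_one a
  apply le_of_sq_le_sq _ (by positivity)
  have h3 : (√3 : ℝ) ^ 2 = 3 := Real.sq_sqrt (by norm_num)
  have e1 : ((1 + c) * Real.sin a) ^ 2 = (1 + c) ^ 3 * (1 - c) := by
    rw [mul_pow, h1]
    ring
  have e2 : (3 * √3 / 4) ^ 2 = 27 / 16 := by
    rw [div_pow, mul_pow, h3]
    norm_num
  rw [e1, e2]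
  have e3 : 27 / 16 - (1 + c) ^ 3 * (1 - c) = (c - 1 / 2) ^ 2 * ((1 + c) ^ 2 + (1 + c) + 3 / 4) := by
    ring
  have e4 : 0 ≤ (c - 1 / 2) ^ 2 * ((1 + c) ^ 2 + (1 + c) + 3 / 4) := by
    have : 0 ≤ 1 + c := by linarith
    positivity
  linarith

lemma hasEquilibrium {n : ℕ} {κ : ℝ} (hκ : ((n : ℝ) + 2) / (2 * n + 3) < κ) :
    HasEquilibrium κ (freq n) := by
  have hn : (0 : ℝ) ≤ n := Nat.cast_nonneg n
  set F : ℝ → ℝ := fun a => κ / ((n + 2 : ℕ) : ℝ) *
    ((1 + Real.cos a) + 2 * (n + 1)) * Real.sin a with hF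
  have hcont : ContinuousOn F (Icc 0 (Real.pi / 2)) := by
    apply Continuous.continuousOn
    rw [hF]
    fun_prop
  have hmem : (1 : ℝ) ∈ Icc (F 0) (F (Real.pi / 2)) := by
    constructor
    · simp [hF]
    · simp only [hF, Real.cos_pi_div_two, Real.sin_pi_div_two]
      rw [div_lt_iff₀ (by positivity)] at hκ
      push_cast
      rw [mul_one, div_mul_eq_mul_div, le_div_iff₀ (by positivity)]
      nlinarith
  obtain ⟨a, -, ha⟩ := intermediate_value_Icc (by positivity) hcont hmem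
  refine ⟨fun i => if i = 0 then a else 0, fun i => ?_⟩
  have hsum : ∑ j : Fin (n + 2), (1 + Real.cos (if j = 0 then a else 0)) =
      (1 + Real.cos a) + 2 * (n + 1) := by
    rw [Fin.sum_univ_succ]
    simp [Fin.succ_ne_zero]
    ring
  unfold rhs
  rw [hsum]
  by_cases hi : i = 0
  · subst hi
    simp only [freq, if_true]
    rw [hF] at ha
    simp only at ha
    linarith
  · simp [freq, hi]

lemma stays_pi {n : ℕ} {κ : ℝ} (hκ : 0 < κ) {Θ : ℝ → Fin (n + 2) → ℝ}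
    (h : IsSolution κ (freq n) (init n) Θ) {i : Fin (n + 2)} (hi : i ≠ 0) {t : ℝ} (ht : 0 ≤ t) :
    Θ t i = Real.pi := by
  have hd : ∀ s, 0 ≤ s → HasDerivWithinAt (fun s => Θ s i - Real.pi)
      (rhs κ (freq n) (Θ s) i) (Ici 0) s := fun s hs => (h.2 s hs i).sub_const _
  have key := eq_zero_of_abs_deriv_le_mul_abs_self_of_eq_zero_right
    (f := fun s => Θ s i - Real.pi) (f' := fun s => rhs κ (freq n) (Θ s) i)
    (K := κ / ((n + 2 : ℕ) : ℝ) * (2 * ((n + 2 : ℕ) : ℝ))) (a := 0) (b := t)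
    (fun s hs => ((hd s hs.1).continuousWithinAt).mono Icc_subset_Ici_self)
    (fun s hs => (hd s hs.1).mono (Ici_subset_Ici.mpr hs.1))
    (by
      have := congrFun h.1 i
      simp [this, init, hi])
    (by
      intro s hs
      have hfi : freq n i = 0 := by simp [freq, hi]
      have hsin : Real.sin (Θ s i) = -Real.sin (Θ s i - Real.pi) := by
        rw [Real.sin_sub_pi]
        ring
      have hS0 : 0 ≤ ∑ j, (1 + Real.cos (Θ s j)) :=
        Finset.sum_nonneg fun j _ => by linarith [Real.neg_one_le_cos (Θ s j)]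
      have hS2 : ∑ j, (1 + Real.cos (Θ s j)) ≤ 2 * ((n + 2 : ℕ) : ℝ) := by
        have : ∑ j : Fin (n + 2), (1 + Real.cos (Θ s j)) ≤ ∑ _j : Fin (n + 2), (2 : ℝ) :=
          Finset.sum_le_sum fun j _ => by linarith [Real.cos_le_one (Θ s j)]
        simpa [mul_comm] using this
      unfold rhs
      rw [hfi, hsin, Real.norm_eq_abs, Real.norm_eq_abs]
      have e : 0 - κ / ((n + 2 : ℕ) : ℝ) * (∑ j, (1 + Real.cos (Θ s j))) *
          -Real.sin (Θ s i - Real.pi) = κ / ((n + 2 : ℕ) : ℝ) *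
          (∑ j, (1 + Real.cos (Θ s j))) * Real.sin (Θ s i - Real.pi) := by ring
      rw [e, abs_mul, abs_mul, abs_of_nonneg hS0, abs_of_nonneg (by positivity)]
      have h1 : |Real.sin (Θ s i - Real.pi)| ≤ |Θ s i - Real.pi| := Real.abs_sin_le_abs
      have h2 : 0 ≤ κ / ((n + 2 : ℕ) : ℝ) := by positivity
      exact mul_le_mul (mul_le_mul_of_nonneg_left hS2 h2) h1 (abs_nonneg _) (by positivity))
  have := key t ⟨ht, le_rfl⟩
  linarith

lemma not_converges {n : ℕ} {κ : ℝ} (hκ : 0 < κ)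
    (hκ2 : κ < 4 / (3 * √3) * ((n + 2 : ℕ) : ℝ)) :
    ¬ SolutionConverges κ (freq n) (init n) := by
  rintro ⟨Θ, h, hconv⟩
  have hs3 : (0 : ℝ) < √3 := Real.sqrt_pos.mpr (by norm_num)
  have hN : (0 : ℝ) < ((n + 2 : ℕ) : ℝ) := by positivity
  set c : ℝ := 1 - κ / ((n + 2 : ℕ) : ℝ) * (3 * √3 / 4) with hc
  have hcpos : 0 < c := by
    have h1 : κ / ((n + 2 : ℕ) : ℝ) < 4 / (3 * √3) := by
      rw [div_lt_iff₀ hN]
      exact hκ2
    have h2 : κ / ((n + 2 : ℕ) : ℝ) * (3 * √3 / 4) < 4 / (3 * √3) * (3 * √3 / 4) :=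
      mul_lt_mul_of_pos_right h1 (by positivity)
    have h3 : 4 / (3 * √3) * (3 * √3 / 4) = 1 := by field_simp
    rw [hc]
    linarith
  have hderiv : ∀ s, 0 ≤ s → c ≤ rhs κ (freq n) (Θ s) 0 := by
    intro s hs
    have hsum : ∑ j : Fin (n + 2), (1 + Real.cos (Θ s j)) = 1 + Real.cos (Θ s 0) := by
      rw [Fin.sum_univ_succ]
      have : ∀ j : Fin (n + 1), 1 + Real.cos (Θ s j.succ) = 0 := by
        intro j
        rw [stays_pi hκ h (Fin.succ_ne_zero j) hs, Real.cos_pi]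
        ring
      simp [this]
    unfold rhs
    rw [hsum]
    have h1 := trig_bound (Θ s 0)
    have h2 : 0 ≤ κ / ((n + 2 : ℕ) : ℝ) := by positivity
    have h3 := mul_le_mul_of_nonneg_left h1 h2
    simp only [freq, if_true]
    rw [hc]
    linarith
  have hgrow : ∀ t, 0 ≤ t → c * t ≤ Θ t 0 := by
    intro t ht
    have hmv := Convex.mul_sub_le_image_sub_of_le_deriv (convex_Ici (0 : ℝ))
      (f := fun s => Θ s 0)
      (fun s hs => (h.2 s hs 0).continuousWithinAt)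
      (fun s hs => by
        rw [interior_Ici] at hs
        exact ((h.2 s (le_of_lt hs) 0).hasDerivAt (Ici_mem_nhds hs)).differentiableAt.differentiableWithinAt)
      (C := c)
      (fun s hs => by
        rw [interior_Ici] at hs
        rw [((h.2 s (le_of_lt hs) 0).hasDerivAt (Ici_mem_nhds hs)).deriv]
        exact hderiv s (le_of_lt hs))
      0 (mem_Ici.mpr le_rfl) t ht ht
    have h0 : Θ 0 0 = 0 := by
      have := congrFun h.1 0
      simpa [init] using this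
    simp only [sub_zero, h0] at hmv
    exact hmv
  obtain ⟨L, hL⟩ := hconv 0
  have hinf : Tendsto (fun t => Θ t 0) atTop atTop := by
    have h1 : Tendsto (fun t : ℝ => c * t) atTop atTop := tendsto_id.const_mul_atTop hcpos
    refine tendsto_atTop_mono' _ ?_ h1
    filter_upwards [eventually_ge_atTop 0] with t ht using hgrow t ht
  exact not_tendsto_nhds_of_tendsto_atTop hinf L hL

/-- **Main theorem.** For every `N ≥ 2` there are `Ω` with `‖Ω‖_∞ ≤ 1` and `Θ₀` such that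
`κ_c(Ω) < κ_pc(Θ₀, Ω)`; moreover `κ_pc(Θ₀, Ω) ≥ 4 N / (3 √3)`. -/
theorem result (N : ℕ) (hN : 2 ≤ N) : ∃ Ω Θ₀ : Fin N → ℝ, (∀ i, |Ω i| ≤ 1) ∧
    criticalCoupling Ω < pathwiseCriticalCoupling Θ₀ Ω ∧
    ((4 / (3 * √3) * N : ℝ) : EReal) ≤ pathwiseCriticalCoupling Θ₀ Ω := by
  obtain ⟨n, rfl⟩ : ∃ n, N = n + 2 := ⟨N - 2, by omega⟩
  have hs3 : (0 : ℝ) < √3 := Real.sqrt_pos.mpr (by norm_num)
  have hlow : ((4 / (3 * √3) * ((n + 2 : ℕ) : ℝ) : ℝ) : EReal) ≤
      pathwiseCriticalCoupling (init n) (freq n) := by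
    apply le_sInf
    rintro _ ⟨k, ⟨hk0, hk⟩, rfl⟩
    by_contra hlt
    push Not at hlt
    have hlt' : k < 4 / (3 * √3) * ((n + 2 : ℕ) : ℝ) := by exact_mod_cast hlt
    obtain ⟨κ, h1, h2⟩ := exists_between hlt'
    exact not_converges (hk0.trans h1) h2 (hk κ h1)
  refine ⟨freq n, init n, ?_, lt_of_lt_of_le ?_ hlow, hlow⟩
  · intro i
    unfold freq
    split_ifs <;> simp
  · have h1 : criticalCoupling (freq n) ≤ ((((n : ℝ) + 2) / (2 * n + 3) : ℝ) : EReal) :=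
      sInf_le ⟨_, ⟨by positivity, fun κ hκ => hasEquilibrium hκ⟩, rfl⟩
    refine lt_of_le_of_lt h1 ?_
    have h2 : ((n : ℝ) + 2) / (2 * n + 3) < 4 / (3 * √3) * ((n + 2 : ℕ) : ℝ) := by
      have hn : (0 : ℝ) ≤ n := Nat.cast_nonneg n
      have h3 : √3 < 2 := by
        rw [Real.sqrt_lt' (by norm_num)]
        norm_num
      have h4 : (2 : ℝ) / 3 < 4 / (3 * √3) := by
        rw [div_lt_div_iff₀ (by norm_num) (by positivity)]
        linarith
      have h5 : ((n : ℝ) + 2) / (2 * n + 3) ≤ 2 / 3 * (n + 2) := by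
        rw [div_le_iff₀ (by positivity)]
        nlinarith
      push_cast
      have h6 : (2 : ℝ) / 3 * (n + 2) < 4 / (3 * √3) * (n + 2) :=
        mul_lt_mul_of_pos_right h4 (by positivity)
      linarith
    exact_mod_cast h2

end Pool.Agent.Results.MP_4423d6_an.StrongFormFails
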